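import Pool.Agent.MP_a9d3bd_q.Defs

namespace Pool.Agent.MP_a9d3bd_s

open MvPolynomial

variable {k : Type} [Field k] {n l : ℕ}
  {G : Subgroup (Matrix.SpecialLinearGroup (Fin (n + 1)) k)}

/-- `S` is Zariski closed. -/
def ZClosed {σ : Type} (S : Set (σ → k)) : Prop := zeroLocus k (vanishingIdeal k S) ⊆ S

/-- The matrices of the members of `S`, as points of affine space. -/
def pts (S : Set G) : Set (Fin (n + 1) × Fin (n + 1) → k) := (fun g c => g.1 c.1 c.2) '' S

/-- The first column. -/
def col (g : G) : Fin (n + 1) → k := fun a => g.1 a 0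

/-- The tuples g with (g i)⁻¹ g (i+1) in `P i` for i < l and (g l)⁻¹ F (g 0) in `P l`. -/
def DL (F : G →* G) (P : Fin (l + 1) → Subgroup G) : Set (Fin (l + 1) → G) :=
  {g | (∀ i : Fin l, (g i.castSucc)⁻¹ * g i.succ ∈ P i.castSucc) ∧
    (g (Fin.last l))⁻¹ * F (g 0) ∈ P (Fin.last l)}

/-- The equations over `L` of the image of `DL F P` under the Segre map of the first columns. -/
def eqs (L : Type) [Field L] [Algebra k L] (F : G →* G) (P : Fin (l + 1) → Subgroup G) :
    Set (MvPolynomial (Fin ((n + 1) ^ (l + 1))) L) :=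
  map (algebraMap k L) '' {f | (∃ d, f.IsHomogeneous d) ∧ ∀ g ∈ DL F P,
    eval (fun c => ∏ i, col (g i) (finFunctionFinEquiv.symm c i)) f = 0}

/-- The linear substitution of the Segre coordinates given by the tensor power of `γ`. -/
noncomputable def tw (L : Type) [Field L] [Algebra k L] (l : ℕ) (γ : G) :
    MvPolynomial (Fin ((n + 1) ^ (l + 1))) L →ₐ[L] MvPolynomial (Fin ((n + 1) ^ (l + 1))) L :=
  aeval fun c => ∑ c', C (algebraMap k L (∏ i,
    γ.1 (finFunctionFinEquiv.symm c i) (finFunctionFinEquiv.symm c' i))) * X c'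

end Pool.Agent.MP_a9d3bd_s
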